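import Pool.Agent.W458.FJ.Stm

set_option autoImplicit false

namespace Pool.Agent.W764.FJ.ASM

open MvPolynomial
open Pool.Agent.W458.FJ

theorem div_of_nz {ι : Type} {a : ι → ℕ} {d : ℕ} {f : MvPolynomial ι ℂ}
    (hf : IsWeightedHomogeneous a f d) {x : ι} (h : nz f {x}) : a x ∣ d := by
  obtain ⟨m, hm, hs⟩ := h
  have h1 := hf (MvPolynomial.mem_support_iff.1 hm)
  rw [Finsupp.weight_apply, Finsupp.sum_of_support_subset m hs _ (by simp)] at h1
  rw [Finset.sum_singleton, smul_eq_mul] at h1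
  exact ⟨m x, by rw [← h1]; ring⟩

theorem reg_symm {ι : Type} [Fintype ι] {a : ι → ℕ} {d₁ d₂ : ℕ} (h : Reg a d₁ d₂) :
    Reg a d₂ d₁ := by
  intro k hk
  have h1 := h k hk
  unfold dl at h1 ⊢
  omega

theorem setup_symm {ι : Type} [Fintype ι] {a : ι → ℕ} {d₁ d₂ : ℕ} {f₁ f₂ : MvPolynomial ι ℂ}
    (h : Setup a d₁ d₂ f₁ f₂) : Setup a d₂ d₁ f₂ f₁ where
  ha := h.ha
  hd₁ := h.hd₂
  hd₂ := h.hd₁
  hf₁ := h.hf₂
  hf₂ := h.hf₁
  hgcd := fun v hv h1 h2 g hg => h.hgcd v hv h2 h1 g hg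

theorem sum3 {ι : Type} [Fintype ι] [DecidableEq ι] (a : ι → ℕ) (x y z : ι) (s t u : ℕ) :
    ∑ i, ((if i = x then s else 0) + (if i = y then t else 0) + (if i = z then u else 0)) * a i =
      s * a x + t * a y + u * a z := by
  simp [add_mul, Finset.sum_add_distrib, ite_mul]

/-- two points, the different divisors -/
theorem two_case (hB2 : B2) (hTOR : TOR) {ι : Type} [Fintype ι] [DecidableEq ι] {a : ι → ℕ}
    {d₁ d₂ : ℕ} {f₁ f₂ : MvPolynomial ι ℂ} (hS : Setup a d₁ d₂ f₁ f₂) (hR : Reg a d₁ d₂)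
    {w : ι → ℂ} (hw1 : eval w f₁ = 0) (hw2 : eval w f₂ = 0) {x y : ι} (hxy : x ≠ y)
    (hx : w x ≠ 0) (hy : w y ≠ 0) (hcov : ∀ i, i ≠ x → i ≠ y → w i = 0)
    (hco : Nat.Coprime (a x) (a y)) (hnx : nz f₁ {x} ∨ nz f₂ {x}) (hny : nz f₁ {y} ∨ nz f₂ {y})
    (h1 : a x ∣ d₁) (h2 : ¬ a x ∣ d₂) (h3 : a y ∣ d₂) (h4 : ¬ a y ∣ d₁) :
    ∑ i, (a i - 1) + (a x - 1) * (a y - 1) ≤ (d₁ - 1) + (d₂ - 1) := by
  have k1 : nz f₁ {x} := by
    rcases hnx with h | h
    · exact h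
    · exact absurd (div_of_nz hS.hf₂ h) h2
  have k2 : nz f₂ {y} := by
    rcases hny with h | h
    · exact absurd (div_of_nz hS.hf₁ h) h4
    · exact h
  have k3 := hTOR ι a hS.ha d₁ f₁ hS.hf₁ x y hxy hco k1 w hx hy hcov hw1
  have k4 := hTOR ι a hS.ha d₂ f₂ hS.hf₂ y x hxy.symm hco.symm k2 w hy hx
    (fun i hi hi' => hcov i hi' hi) hw2
  rw [mul_comm] at k4
  exact hB2 ι a d₁ d₂ hS.ha hS.hd₁ hS.hd₂ hR x y hxy h1 h2 h3 h4 k3 k4

/-- three points: the conclusion from the bound -/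
theorem three_end (hSG3 : SG3) {ι : Type} [Fintype ι] [DecidableEq ι] {a : ι → ℕ}
    {d₁ d₂ : ℕ} {f₁ f₂ : MvPolynomial ι ℂ} (hS : Setup a d₁ d₂ f₁ f₂)
    {w : ι → ℂ} (hw0 : w ≠ 0) (hw1 : eval w f₁ = 0) (hw2 : eval w f₂ = 0) {x y z : ι}
    (hx : w x ≠ 0) (hy : w y ≠ 0) (hz : w z ≠ 0)
    (hcov : ∀ i, w i ≠ 0 → i = x ∨ i = y ∨ i = z) {e : ℕ}
    (he : (d₁ - 1) + (d₂ - 1) ≤ e + ∑ i, (a i - 1))
    (hb : ∑ i, (a i - 1) + Nat.lcm (a x) (a y) + Nat.lcm (Nat.gcd (a x) (a y)) (a z) + 1 ≤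
        (d₁ - 1) + (d₂ - 1) + a x + a y + a z) :
    ∃ c : ι → ℕ, (∀ i, w i = 0 → c i = 0) ∧ ∑ i, c i * a i = e := by
  have hg : Nat.gcd (Nat.gcd (a x) (a y)) (a z) = 1 := by
    apply hS.hgcd w hw0 hw1 hw2
    intro i hi
    rcases hcov i hi with rfl | rfl | rfl
    · exact (Nat.gcd_dvd_left _ _).trans (Nat.gcd_dvd_left _ _)
    · exact (Nat.gcd_dvd_left _ _).trans (Nat.gcd_dvd_right _ _)
    · exact Nat.gcd_dvd_right _ _
  obtain ⟨s, t, u, hn⟩ := hSG3 (a x) (a y) (a z) e (hS.ha x) (hS.ha y) (hS.ha z) hg (by omega)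
  refine ⟨fun i => (if i = x then s else 0) + (if i = y then t else 0) + (if i = z then u else 0),
    ?_, ?_⟩
  · intro i hi
    have e1 : i ≠ x := by rintro rfl; exact hx hi
    have e2 : i ≠ y := by rintro rfl; exact hy hi
    have e3 : i ≠ z := by rintro rfl; exact hz hi
    simp [e1, e2, e3]
  · rw [sum3]
    exact hn.symm

theorem main : GEO → REG → B1 → B2 → C1 → C2 → SG3 → TOR → ASM := by
  intro hGEO hREG hB1 hB2 hC1 hC2 hSG3 hTOR
  intro ι _ _ a d₁ d₂ f₁ f₂ hS e he v hv hv1 hv2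
  classical
  have hR : Reg a d₁ d₂ := hREG ι a d₁ d₂ f₁ f₂ hS
  have hR' := reg_symm hR
  have hS' := setup_symm hS
  -- minimal support
  let P : Set (ι → ℂ) := {u | u ≠ 0 ∧ eval u f₁ = 0 ∧ eval u f₂ = 0 ∧ ∀ i, v i = 0 → u i = 0}
  obtain ⟨w, hw, hmin⟩ := WellFounded.has_min
    (measure (fun u : ι → ℂ => (Finset.univ.filter (fun i => u i ≠ 0)).card)).wf P
    ⟨v, hv, hv1, hv2, fun i hi => hi⟩
  obtain ⟨hw0, hw1, hw2, hwv⟩ := hw
  suffices hgoal : ∃ c : ι → ℕ, (∀ i, w i = 0 → c i = 0) ∧ ∑ i, c i * a i = e by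
    obtain ⟨c, hc1, hc2⟩ := hgoal
    exact ⟨c, fun i hi => hc1 i (hwv i hi), hc2⟩
  set I : Finset ι := Finset.univ.filter (fun i => w i ≠ 0) with hI
  have hmemI : ∀ i, i ∈ I ↔ w i ≠ 0 := by
    intro i
    simp [hI]
  have hgeo : ∀ K : Finset ι, K.Nonempty → K ⊆ I → K.card < I.card →
      (nz f₁ K ∨ nz f₂ K) ∧ (2 ≤ K.card → nz f₁ K ∧ nz f₂ K) ∧ K.card ≤ 2 := by
    intro K hK hKI hcard
    apply hGEO ι a d₁ d₂ f₁ f₂ hS K hK
    rintro u hu0 huK ⟨hu1, hu2⟩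
    have hPu : u ∈ P := by
      refine ⟨hu0, hu1, hu2, fun i hi => ?_⟩
      apply huK
      intro hiK
      exact (hmemI i).1 (hKI hiK) (hwv i hi)
    apply hmin u hPu
    show (Finset.univ.filter (fun i => u i ≠ 0)).card < I.card
    refine lt_of_le_of_lt (Finset.card_le_card ?_) hcard
    intro i hi
    simp only [Finset.mem_filter, Finset.mem_univ, true_and] at hi
    by_contra hiK
    exact hi (huK i hiK)
  -- a weight one
  by_cases h1 : ∃ i, w i ≠ 0 ∧ a i = 1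
  · obtain ⟨i, hi, hai⟩ := h1
    refine ⟨fun j => if j = i then e else 0, ?_, ?_⟩
    · intro j hj
      have : j ≠ i := by rintro rfl; exact hi hj
      simp [this]
    · simp [ite_mul, hai]
  have h1' : ∀ i, w i ≠ 0 → a i ≠ 1 := fun i hi hai => h1 ⟨i, hi, hai⟩
  have hIne : I.Nonempty := by
    rw [Finset.nonempty_iff_ne_empty]
    intro h
    apply hw0
    funext i
    by_contra hi
    have := (hmemI i).2 hi
    rw [h] at this
    simp at this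
  have hc1 : I.card ≠ 1 := by
    intro h
    obtain ⟨x, hx⟩ := Finset.card_eq_one.1 h
    have hwx : w x ≠ 0 := (hmemI x).1 (by rw [hx]; simp)
    apply h1' x hwx
    apply hS.hgcd w hw0 hw1 hw2
    intro i hi
    have hix : i ∈ I := (hmemI i).2 hi
    rw [hx, Finset.mem_singleton] at hix
    rw [hix]
  have hc0 : 0 < I.card := Finset.card_pos.2 hIne
  have hc3 : I.card ≤ 3 := by
    by_contra hcon
    obtain ⟨x, hx⟩ := hIne
    have hce : (I.erase x).card = I.card - 1 := Finset.card_erase_of_mem hx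
    have hne : (I.erase x).Nonempty := by
      rw [← Finset.card_pos]
      omega
    have := (hgeo (I.erase x) hne (Finset.erase_subset _ _) (by omega)).2.2
    omega
  have hsing : ∀ x, w x ≠ 0 → nz f₁ {x} ∨ nz f₂ {x} := by
    intro x hx
    refine (hgeo {x} (Finset.singleton_nonempty x) ?_ ?_).1
    · rw [Finset.singleton_subset_iff]
      exact (hmemI x).2 hx
    · rw [Finset.card_singleton]
      omega
  have hdiv : ∀ x, w x ≠ 0 → a x ∣ d₁ ∨ a x ∣ d₂ := by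
    intro x hx
    rcases hsing x hx with h | h
    · exact Or.inl (div_of_nz hS.hf₁ h)
    · exact Or.inr (div_of_nz hS.hf₂ h)
  have hcase : I.card = 2 ∨ I.card = 3 := by omega
  rcases hcase with hc | hc
  · -- two points
    obtain ⟨x, y, hxy, hIxy⟩ := Finset.card_eq_two.1 hc
    have hx : w x ≠ 0 := (hmemI x).1 (by rw [hIxy]; simp)
    have hy : w y ≠ 0 := (hmemI y).1 (by rw [hIxy]; simp)
    have hcov : ∀ i, i ≠ x → i ≠ y → w i = 0 := by
      intro i hix hiy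
      by_contra hi
      have := (hmemI i).2 hi
      rw [hIxy] at this
      simp [hix, hiy] at this
    have hco : Nat.Coprime (a x) (a y) := by
      apply hS.hgcd w hw0 hw1 hw2
      intro i hi
      by_cases hix : i = x
      · rw [hix]
        exact Nat.gcd_dvd_left _ _
      by_cases hiy : i = y
      · rw [hiy]
        exact Nat.gcd_dvd_right _ _
      exact absurd (hcov i hix hiy) hi
    have hb : ∑ i, (a i - 1) + (a x - 1) * (a y - 1) ≤ (d₁ - 1) + (d₂ - 1) := by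
      by_cases hA : a x ∣ d₁ ∧ a y ∣ d₁
      · exact hB1 ι a d₁ d₂ hS.ha hS.hd₁ hS.hd₂ hR x y hxy hco hA.1 hA.2
      by_cases hB : a x ∣ d₂ ∧ a y ∣ d₂
      · have := hB1 ι a d₂ d₁ hS.ha hS.hd₂ hS.hd₁ hR' x y hxy hco hB.1 hB.2
        omega
      rcases hdiv x hx with hx1 | hx2
      · have hy1 : ¬ a y ∣ d₁ := fun h => hA ⟨hx1, h⟩
        have hy2 : a y ∣ d₂ := (hdiv y hy).resolve_left hy1
        have hx2 : ¬ a x ∣ d₂ := fun h => hB ⟨h, hy2⟩
        exact two_case hB2 hTOR hS hR hw1 hw2 hxy hx hy hcov hco (hsing x hx) (hsing y hy)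
          hx1 hx2 hy2 hy1
      · have hy2 : ¬ a y ∣ d₂ := fun h => hB ⟨hx2, h⟩
        have hy1 : a y ∣ d₁ := (hdiv y hy).resolve_right hy2
        have hx1 : ¬ a x ∣ d₁ := fun h => hA ⟨h, hy1⟩
        have := two_case hB2 hTOR hS' hR' hw2 hw1 hxy hx hy hcov hco (hsing x hx).symm
          (hsing y hy).symm hx2 hx1 hy1 hy2
        omega
    have hle : (a x - 1) * (a y - 1) ≤ e := by omega
    obtain ⟨s, t, hst⟩ := Nat.exists_add_mul_eq_of_gcd_dvd_of_mul_pred_le (a x) (a y) e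
      (by rw [hco]; exact one_dvd _) hle
    refine ⟨fun i => (if i = x then s else 0) + (if i = y then t else 0) +
      (if i = y then 0 else 0), ?_, ?_⟩
    · intro i hi
      have e1 : i ≠ x := by rintro rfl; exact hx hi
      have e2 : i ≠ y := by rintro rfl; exact hy hi
      simp [e1, e2]
    · rw [sum3]
      rw [← hst]
      ring
  · -- three points
    obtain ⟨x, y, z, hxy, hxz, hyz, hIx⟩ := Finset.card_eq_three.1 hc
    have hx : w x ≠ 0 := (hmemI x).1 (by rw [hIx]; simp)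
    have hy : w y ≠ 0 := (hmemI y).1 (by rw [hIx]; simp)
    have hz : w z ≠ 0 := (hmemI z).1 (by rw [hIx]; simp)
    have hcov : ∀ i, w i ≠ 0 → i = x ∨ i = y ∨ i = z := by
      intro i hi
      have := (hmemI i).2 hi
      rw [hIx] at this
      simpa using this
    have he' : (d₂ - 1) + (d₁ - 1) ≤ e + ∑ i, (a i - 1) := by omega
    have g1 : ∀ p q r : ι, p ≠ q → p ≠ r → q ≠ r → w p ≠ 0 → w q ≠ 0 → w r ≠ 0 →
        (∀ i, w i ≠ 0 → i = p ∨ i = q ∨ i = r) → a p ∣ d₁ → a q ∣ d₁ → a r ∣ d₂ →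
        ∃ c : ι → ℕ, (∀ i, w i = 0 → c i = 0) ∧ ∑ i, c i * a i = e := by
      intro p q r h12 h13 h23 hp hq hr hcv k1 k2 k3
      exact three_end hSG3 hS hw0 hw1 hw2 hp hq hr hcv he
        (hC1 ι a d₁ d₂ hS.ha hS.hd₁ hS.hd₂ hR p q r h12 h13 h23 k1 k2 k3)
    have g1' : ∀ p q r : ι, p ≠ q → p ≠ r → q ≠ r → w p ≠ 0 → w q ≠ 0 → w r ≠ 0 →
        (∀ i, w i ≠ 0 → i = p ∨ i = q ∨ i = r) → a p ∣ d₂ → a q ∣ d₂ → a r ∣ d₁ →
        ∃ c : ι → ℕ, (∀ i, w i = 0 → c i = 0) ∧ ∑ i, c i * a i = e := by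
      intro p q r h12 h13 h23 hp hq hr hcv k1 k2 k3
      exact three_end hSG3 hS' hw0 hw2 hw1 hp hq hr hcv he'
        (hC1 ι a d₂ d₁ hS.ha hS.hd₂ hS.hd₁ hR' p q r h12 h13 h23 k1 k2 k3)
    have c132 : ∀ i, w i ≠ 0 → i = x ∨ i = z ∨ i = y := by
      intro i hi
      have := hcov i hi
      tauto
    have c231 : ∀ i, w i ≠ 0 → i = y ∨ i = z ∨ i = x := by
      intro i hi
      have := hcov i hi
      tauto
    rcases hdiv x hx with hx1 | hx2 <;> rcases hdiv y hy with hy1 | hy2 <;>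
      rcases hdiv z hz with hz1 | hz2
    · -- 1 1 1
      by_cases hz2 : a z ∣ d₂
      · exact g1 x y z hxy hxz hyz hx hy hz hcov hx1 hy1 hz2
      by_cases hy2 : a y ∣ d₂
      · exact g1 x z y hxz hxy hyz.symm hx hz hy c132 hx1 hz1 hy2
      by_cases hx2 : a x ∣ d₂
      · exact g1 y z x hyz hxy.symm hxz.symm hy hz hx c231 hy1 hz1 hx2
      exact three_end hSG3 hS hw0 hw1 hw2 hx hy hz hcov he
        (hC2 ι a d₁ d₂ hS.ha hS.hd₁ hS.hd₂ hR x y z hxy hxz hyz hx1 hy1 hz1 hx2 hy2 hz2)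
    · exact g1 x y z hxy hxz hyz hx hy hz hcov hx1 hy1 hz2
    · exact g1 x z y hxz hxy hyz.symm hx hz hy c132 hx1 hz1 hy2
    · exact g1' y z x hyz hxy.symm hxz.symm hy hz hx c231 hy2 hz2 hx1
    · exact g1 y z x hyz hxy.symm hxz.symm hy hz hx c231 hy1 hz1 hx2
    · exact g1' x z y hxz hxy hyz.symm hx hz hy c132 hx2 hz2 hy1
    · exact g1' x y z hxy hxz hyz hx hy hz hcov hx2 hy2 hz1
    · -- 2 2 2
      by_cases hz1 : a z ∣ d₁
      · exact g1' x y z hxy hxz hyz hx hy hz hcov hx2 hy2 hz1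
      by_cases hy1 : a y ∣ d₁
      · exact g1' x z y hxz hxy hyz.symm hx hz hy c132 hx2 hz2 hy1
      by_cases hx1 : a x ∣ d₁
      · exact g1' y z x hyz hxy.symm hxz.symm hy hz hx c231 hy2 hz2 hx1
      exact three_end hSG3 hS' hw0 hw2 hw1 hx hy hz hcov he'
        (hC2 ι a d₂ d₁ hS.ha hS.hd₂ hS.hd₁ hR' x y z hxy hxz hyz hx2 hy2 hz2 hx1 hy1 hz1)

end Pool.Agent.W764.FJ.ASM
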